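import Pool.Agent.Q18.K.EqR

/-!
# Galois automorphisms and the equivariant alternating sums of Dade, block by block
-/

open scoped Classical

open Pool.Agent.Y63.KR (conjSub conjSub_one conjSub_mul)

noncomputable section

namespace Pool.Agent.Results.MP_baa4d7_al.EquivariantGalois

/-- `χ` is an irreducible complex character of `H`. -/
def IsIrr {H : Type} [Group H] (χ : H → ℂ) : Prop :=
  ∃ (V : Type) (_ : AddCommGroup V) (_ : Module ℂ V) (_ : FiniteDimensional ℂ V)
    (ρ : Representation ℂ H V), ρ.IsIrreducible ∧ χ = ρ.character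

section

variable {F : Type} [Field F]

/-- `f` is a class function: an element of the centre of the group algebra `F[G]`. -/
def IsClassFun {G : Type} [Group G] (f : G → F) : Prop := ∀ g x : G, f (g * x * g⁻¹) = f x

/-- The product of the group algebra `F[G]`. -/
def conv {G : Type} [Group G] (f g : G → F) : G → F := fun x => ∑ᶠ y : G, f y * g (y⁻¹ * x)

/-- `B` is (the central character of) a `p`-block of `G`: an `F`-algebra homomorphism from the centre
of `F[G]` to `F`, for `F` algebraically closed of characteristic `p`. -/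
structure IsBlock {G : Type} [Group G] (B : (G → F) → F) : Prop where
  add : ∀ f g : G → F, IsClassFun f → IsClassFun g → B (f + g) = B f + B g
  smul : ∀ (a : F) (f : G → F), IsClassFun f → B (a • f) = a * B f
  one : B (Pi.single 1 1) = 1
  mul : ∀ f g : G → F, IsClassFun f → IsClassFun g → B (conv f g) = B f * B g

/-- The reduction of an algebraic integer, extended by zero to all complex numbers. -/
def redC (red : integralClosure ℤ ℂ →+* F) (a : ℂ) : F :=
  if h : IsIntegral ℤ a then red ⟨a, h⟩ else 0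

/-- The value of the reduction `λ_χ` of the central character of `χ` at the class function `f`:
`∑_C f(C) · red (|C| χ(C) / χ(1))`, the sum over the conjugacy classes `C` of `H`. -/
def centralValue (red : integralClosure ℤ ℂ →+* F) {H : Type} [Group H] (χ : H → ℂ)
    (f : H → F) : F :=
  ∑ᶠ C : ConjClasses H, f C.out * redC red ((Nat.card C.carrier : ℂ) * χ C.out / χ 1)

end

section

variable {E : Type} [Group E]

/-- A chain `P_0 = Z < P_1 < ⋯ < P_n` of `p`-subgroups of the normal subgroup `G` of `E`, recorded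
by the set `{P_1, …, P_n}`. -/
structure IsChainOf (p : ℕ) (G Z : Subgroup E) (C : Set (Subgroup E)) : Prop where
  chain : IsChain (· ≤ ·) C
  isPGroup : ∀ P ∈ C, IsPGroup p P
  le : ∀ P ∈ C, P ≤ G
  lt : ∀ P ∈ C, Z < P

/-- `N_E(C) = ⋂ N_E(P_i)` (here `Z = P_0` is normal in `E`). -/
def normE (C : Set (Subgroup E)) : Subgroup E := ⨅ P ∈ C, Subgroup.normalizer (P : Set E)

/-- `N_G(C)` -/
def normG (G : Subgroup E) (C : Set (Subgroup E)) : Subgroup E := G ⊓ normE C

/-- `N_E(C, ψ)`: the elements `t` of `N_E(C)` with `ψ (t x t⁻¹) = ψ x` for all `x ∈ N_G(C)`. -/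
def stabPair (G : Subgroup E) (hG : G.Normal) {C : Set (Subgroup E)} (ψ : normG G C → ℂ) :
    Subgroup E where
  carrier := {t | t ∈ normE C ∧ ∀ x y : normG G C, (y : E) = t * x * t⁻¹ → ψ y = ψ x}
  mul_mem' := by
    rintro a b ⟨ha, ha'⟩ ⟨hb, hb'⟩
    refine ⟨Subgroup.mul_mem _ ha hb, fun x y hy => ?_⟩
    have h1 : (y : E) = a * (b * x * b⁻¹) * a⁻¹ := by rw [hy]; group
    have h2 : b * x * b⁻¹ ∈ normG G C := ⟨hG.conj_mem _ x.2.1 _,
      Subgroup.mul_mem _ (Subgroup.mul_mem _ hb x.2.2) (Subgroup.inv_mem _ hb)⟩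
    rw [ha' ⟨b * x * b⁻¹, h2⟩ y h1, hb' x _ rfl]
  one_mem' := by
    refine ⟨Subgroup.one_mem _, fun x y hy => ?_⟩
    rw [one_mul, inv_one, mul_one] at hy
    exact congrArg ψ (Subtype.ext hy)
  inv_mem' := by
    rintro a ⟨ha, ha'⟩
    refine ⟨Subgroup.inv_mem _ ha, fun x y hy => ?_⟩
    refine (ha' y x ?_).symm
    rw [hy]
    group

/-- `N_{E/G}(C, ψ)`: the image of `N_E(C, ψ)` in `E/G`. -/
def outerStab (G : Subgroup E) (hG : G.Normal) {C : Set (Subgroup E)} (ψ : normG G C → ℂ) :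
    Subgroup (E ⧸ G) := (stabPair G hG ψ).map (QuotientGroup.mk' G)

/-- The pair `(C, ψ)` is fixed by `(e, s)` up to conjugation in `G`: there is `t ∈ G e` in `N_E(C)`
with `s (ψ (t x t⁻¹)) = ψ x` for all `x ∈ N_G(C)`. -/
def FixedBy (G : Subgroup E) (e : E) (s : ℂ ≃+* ℂ) {C : Set (Subgroup E)} (ψ : normG G C → ℂ) :
    Prop :=
  ∃ t : E, t * e⁻¹ ∈ G ∧ t ∈ normE C ∧
    ∀ x y : normG G C, (y : E) = t * x * t⁻¹ → s (ψ y) = ψ x

/-- Conjugacy of chains under `G`. -/
def conjSetoid (p : ℕ) (G Z : Subgroup E) : Setoid {C : Set (Subgroup E) // IsChainOf p G Z C} where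
  r C D := ∃ g : G, D.1 = (fun P => P.map (MulAut.conj (g : E)).toMonoidHom) '' C.1
  iseqv :=
    { refl := fun d => ⟨1, by
        have : (fun P : Subgroup E => P.map (MulAut.conj ((1 : G) : E)).toMonoidHom) = id :=
          funext conjSub_one
        rw [this, Set.image_id]⟩
      symm := by
        rintro d e ⟨g, hg⟩
        refine ⟨g⁻¹, ?_⟩
        rw [hg, ← Set.image_comp]
        have : (fun P : Subgroup E => P.map (MulAut.conj ((g⁻¹ : G) : E)).toMonoidHom) ∘
            (fun P : Subgroup E => P.map (MulAut.conj (g : E)).toMonoidHom) = id := by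
          funext P
          change conjSub (g : E)⁻¹ (conjSub g P) = P
          rw [← conjSub_mul, inv_mul_cancel, conjSub_one]
        rw [this, Set.image_id]
      trans := by
        rintro d e f ⟨g, hg⟩ ⟨h, hh⟩
        refine ⟨h * g, ?_⟩
        rw [hh, hg, ← Set.image_comp]
        congr 1
        exact (funext fun P => conjSub_mul (h : E) g P).symm }

/-- The number of the `ψ ∈ Irr(N_G(C))` with `b(ψ)^G = B` and the property `Q`. Here `b(ψ)^G = B`
says `λ_ψ(f|_{N_G(C)}) = B(f)` for all class functions `f` of `G`. -/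
def numIrr {F : Type} [Field F] (red : integralClosure ℤ ℂ →+* F) {G : Subgroup E}
    (B : (G → F) → F) (Q : ∀ C : Set (Subgroup E), (normG G C → ℂ) → Prop)
    (C : Set (Subgroup E)) : ℕ :=
  Nat.card {ψ : normG G C → ℂ // IsIrr ψ ∧ Q C ψ ∧
    ∀ f : G → F, IsClassFun f → centralValue red ψ (fun x => f ⟨x, x.2.1⟩) = B f}

/-- The alternating sum `∑_C (-1)^|C| |{ψ ∈ Irr(N_G(C)) : b(ψ)^G = B, Q ψ}|` over representatives `C`
of the `G`-classes of the chains `Z = P_0 < P_1 < ⋯ < P_n` of `p`-subgroups of `G`. -/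
def altSum {F : Type} [Field F] (p : ℕ) {G : Subgroup E} (Z : Subgroup E)
    (red : integralClosure ℤ ℂ →+* F) (B : (G → F) → F)
    (Q : ∀ C : Set (Subgroup E), (normG G C → ℂ) → Prop) : ℤ :=
  ∑ᶠ c : Quotient (conjSetoid p G Z), (-1) ^ (Quotient.out c).1.ncard *
    (numIrr red B Q (Quotient.out c).1 : ℤ)

end

/-- The values of `ψ` lie in `ℚ(ζ_{k q})` for some `k` prime to `p` (for `q = 1`: `ψ` is
`p`-rational). -/
def IsRat (p q : ℕ) {H : Type} (ψ : H → ℂ) : Prop :=
  ∃ k : ℕ, ¬ p ∣ k ∧ ∀ x, ψ x ∈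
    IntermediateField.adjoin ℚ {Complex.exp (2 * Real.pi * Complex.I / (k * q : ℕ))}

/-- Let `G` be a normal subgroup of the finite group `E`, `Z` a `p`-subgroup of `G` which is normal
in `E` (for instance `O_p(G)`), and `B` a `p`-block of `G`.

1. For every `e ∈ E` and every automorphism `s` of `ℂ` which fixes the `|E|`-th roots of unity of
  order dividing `k exp(Z)` for some `k` prime to `p`: the alternating sums over the characters `ψ`
  for which `(C, ψ)` is fixed by `(e, s)`, and by `e`, are equal.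
2. If `E/G` is cyclic of order prime to `m`, where `s ^ m` fixes the `|E|`-th roots of unity: for
  every `U ≤ E/G` the characters `ψ` with `N_{E/G}(C, ψ) = U` which are not fixed by `s` cancel.
3. If `E/G` is cyclic of order prime to `p (p - 1)`: for every `U ≤ E/G` the characters `ψ` with
  `N_{E/G}(C, ψ) = U` which are not `p`-rational cancel (`Z = 1`, `p` odd; in general the characters
  with values in the fields `ℚ(ζ_{k q})`, `k` prime to `p`, `q` a power of `p` divisible by `exp(Z)`,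
  and by `4` if `p = 2`, give the same sum). -/
theorem result (p : ℕ) [Fact p.Prime] (F : Type) [Field F] [IsAlgClosed F] [CharP F p]
    (red : integralClosure ℤ ℂ →+* F) (E : Type) [Group E] [Finite E] (G Z : Subgroup E)
    (hG : G.Normal) (hZn : Z.Normal) (hZG : Z ≤ G) (hZ : IsPGroup p Z) (B : (G → F) → F)
    (hB : IsBlock B) :
    (∀ s : ℂ ≃+* ℂ, (∀ ζ : ℂ, ζ ^ Nat.card E = 1 →
        (∃ k : ℕ, ¬ p ∣ k ∧ ζ ^ (k * Monoid.exponent Z) = 1) → s ζ = ζ) →
      (∀ e : E, altSum p Z red B (fun _ ψ => FixedBy G e s ψ) =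
        altSum p Z red B (fun _ ψ => QuotientGroup.mk' G e ∈ outerStab G hG ψ)) ∧
      (∀ m : ℕ, (∀ ζ : ℂ, ζ ^ Nat.card E = 1 → (s : ℂ → ℂ)^[m] ζ = ζ) → IsCyclic (E ⧸ G) →
        m.Coprime (Nat.card (E ⧸ G)) → ∀ U : Subgroup (E ⧸ G),
        altSum p Z red B (fun _ ψ => outerStab G hG ψ = U) =
        altSum p Z red B (fun _ ψ => outerStab G hG ψ = U ∧ ∀ x, s (ψ x) = ψ x))) ∧
    (IsCyclic (E ⧸ G) → (p * (p - 1)).Coprime (Nat.card (E ⧸ G)) →
      ∀ b : ℕ, (p ≠ 2 ∨ 2 ≤ b) → Monoid.exponent Z ∣ p ^ b → ∀ U : Subgroup (E ⧸ G),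
        altSum p Z red B (fun _ ψ => outerStab G hG ψ = U) =
        altSum p Z red B (fun _ ψ => outerStab G hG ψ = U ∧ IsRat p (p ^ b) ψ)) := by
  have hB' : Pool.Agent.Y63.NV.IsBlock B := ⟨hB.add, hB.smul, hB.one, hB.mul⟩
  have hfin : Fintype {σ : Set (Subgroup E) // Pool.Agent.Q18.K.CH p G Z σ} := Fintype.ofFinite _
  have hfin' : Fintype {σ : Set (Subgroup E) // IsChainOf p G Z σ} := Fintype.ofFinite _
  have hch : ∀ C : Set (Subgroup E), IsChainOf p G Z C ↔ Pool.Agent.Q18.K.CH p G Z C := fun C =>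
    ⟨fun h => ⟨h.chain, h.isPGroup, h.le, h.lt⟩, fun h => ⟨h.chain, h.isp, h.le, h.lt⟩⟩
  have hpos : (Nat.card G : ℤ) ≠ 0 := by exact_mod_cast Nat.card_pos.ne'
  have key : ∀ Q : ∀ C : Set (Subgroup E), (normG G C → ℂ) → Prop,
      Pool.Agent.Q18.K.GInv hG Q →
      (Nat.card G : ℤ) * altSum p Z red B Q = Pool.Agent.Q18.K.aS p Z red B Q := by
    intro Q hQ
    exact Pool.Agent.Q18.K.card_mul_G hG hZn (IsChainOf p G Z) hch (conjSetoid p G Z)
      (fun _ _ => Iff.rfl) (fun C => (Pool.Agent.Q18.K.cntQ red B Q C : ℤ))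
      (fun g C => by rw [Pool.Agent.Q18.K.cntQ_conj hG red B hQ g C])
  have hEFi : ∀ (e : E) (s : ℂ ≃+* ℂ), Pool.Agent.Q18.K.GInv hG
      (fun C (ψ : normG G C → ℂ) => FixedBy G e s ψ) := fun e s =>
    Pool.Agent.Q18.K.EF_inv hG s e
  have hU1 : ∀ U : Subgroup (E ⧸ G), Pool.Agent.Q18.K.GInv hG
      (fun C (ψ : normG G C → ℂ) => outerStab G hG ψ = U) := fun U =>
    Pool.Agent.Q18.K.ginv_PS hG (fun V _ => V = U)
  have hU2 : ∀ e : E, Pool.Agent.Q18.K.GInv hG
      (fun C (ψ : normG G C → ℂ) => QuotientGroup.mk' G e ∈ outerStab G hG ψ) := fun e =>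
    Pool.Agent.Q18.K.ginv_PS hG (fun V _ => QuotientGroup.mk' G e ∈ V)
  have hU3 : ∀ (U : Subgroup (E ⧸ G)) (s : ℂ ≃+* ℂ), Pool.Agent.Q18.K.GInv hG
      (fun C (ψ : normG G C → ℂ) => outerStab G hG ψ = U ∧ ∀ x, s (ψ x) = ψ x) := by
    intro U s
    have h1 := Pool.Agent.Q18.K.ginv_PS hG (fun V S => V = U ∧ ∀ a ∈ S, s a = a)
    simp only [Set.forall_mem_range] at h1
    exact h1
  have hU4 : ∀ (U : Subgroup (E ⧸ G)) (q : ℕ), Pool.Agent.Q18.K.GInv hG
      (fun C (ψ : normG G C → ℂ) => outerStab G hG ψ = U ∧ IsRat p q ψ) := by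
    intro U q
    have h1 := Pool.Agent.Q18.K.ginv_PS hG (fun V S => V = U ∧ ∃ k : ℕ, ¬ p ∣ k ∧
      ∀ a ∈ S, a ∈ IntermediateField.adjoin ℚ {Pool.Agent.Q18.K.zt (k * q)})
    simp only [Set.forall_mem_range] at h1
    exact h1
  refine ⟨fun s hs => ⟨fun e => ?_, fun m hm hcyc hcop U => ?_⟩,
    fun hcyc hcop b hpb hbe U => ?_⟩
  · apply mul_left_cancel₀ hpos
    refine (key _ (hEFi e s)).trans (Eq.trans ?_ (key _ (hU2 e)).symm)
    refine Eq.trans (Pool.Agent.Q18.K.eq_cls red hG hZ hZG hZn hs hB' e) ?_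
    exact Pool.Agent.Q18.K.aS_congr red B fun C ψ _ => Pool.Agent.Q18.K.EF_iff hG ψ e
  · have hm' : ∀ ζ : ℂ, ζ ^ Nat.card E = 1 → ((show RingAut ℂ from s) ^ m) ζ = ζ := by
      intro ζ hζ
      have h1 : ∀ (k : ℕ) (a : ℂ), ((show RingAut ℂ from s) ^ k) a = (s : ℂ → ℂ)^[k] a := by
        intro k
        induction k with
        | zero => intro a; rfl
        | succ k ih =>
          intro a
          rw [pow_succ, RingAut.mul_apply, ih]
          exact (Function.iterate_succ_apply _ _ _).symm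
      rw [h1]
      exact hm ζ hζ
    apply mul_left_cancel₀ hpos
    refine (key _ (hU1 U)).trans (Eq.trans ?_ (key _ (hU3 U s)).symm)
    exact Pool.Agent.Q18.K.eq_stab red hG hZ hZG hZn hs hm' hcyc hcop hB' U
  · apply mul_left_cancel₀ hpos
    refine (key _ (hU1 U)).trans (Eq.trans ?_ (key _ (hU4 U (p ^ b))).symm)
    exact Pool.Agent.Q18.K.eq_stab_rat red hG hZ hZG hZn hpb hbe hcyc hcop hB' U

end Pool.Agent.Results.MP_baa4d7_al.EquivariantGalois
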