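import Pool.Agent.Q17.TP.Fin

/-!
# Dade's invariant conjecture relative to a character triple

`N ≤ G` are normal subgroups of the finite group `E`, `θ` is an irreducible character of `N`
which is invariant under `G`, of `p`-power degree and with determinant of `p`-power order (this holds
for every irreducible character if `N` is a `p`-group). The alternating sums of Dade's invariant conjecture (over all blocks
and all defects) for the chains `C` of `p`-subgroups of `G / N` and the characters of their stabilisers
`G_C` in `G` which lie over `θ` do not depend on `θ`.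

From `Pool.Agent.Q17.TP.Stm`: `GS G N σ` is the stabiliser `G_σ` in `G` of the chain `σ` (the set of the
members `≠ 1`) of `p`-subgroups of `G / N`; `altQ p G N w` is the sum of the `(-1) ^ |σ| * w σ` over
representatives `σ` of the classes under `G` of these chains (the empty one included); `wQ G N θ e s σ`
is the number of the irreducible characters `ψ` of `G_σ` over `θ` such that `(σ, ψ)` is fixed by
`(e, s)` up to conjugation in `G`; `FixN N θ e s`: `(e, s)` fixes `θ`; `InvG G N θ`: `θ` is invariant
under `G`; `wU G N θ U σ` is the number of the irreducible characters `ψ` of `G_σ` over `θ` such that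
the stabiliser of `(σ, ψ)` in `E / G` is `U`; `PSpec p θ`: `θ` is irreducible, of `p`-power degree and
with determinant of `p`-power order.
-/

open scoped Classical
open Pool.Agent.H254R3.IN Pool.Agent.Q17.TP

namespace Pool.Agent.Results.MP_baa4d7_al.InvariantTriples

/-- **Theorem.** Let `N ≤ G` be normal subgroups of the finite group `E` and `θ` an irreducible
character of `N`, invariant under `G`, of `p`-power degree and with determinant of `p`-power order.
(1) For all `e ∈ E` and all automorphisms `s` of `ℂ` such that `(e, s)` fixes `θ`, the alternating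
sum, over the chains `C` of `p`-subgroups of `G / N` modulo `G`, of the numbers of the
`ψ ∈ Irr(G_C | θ)` such that `(C, ψ)` is fixed modulo `G` by `(e, s)`, is equal to the same sum for the
trivial character of `N` in place of `θ`, that is, for the characters of the `(G / N)_C`.
(2) If `θ` is invariant under `E` and `E / G` is cyclic, then for every subgroup `U` of `E / G` the
alternating sum of the numbers of the `ψ ∈ Irr(G_C | θ)` with `N_{E / G}(C, ψ) = U` is equal to the
same sum for the characters of the `(G / N)_C`.
(3) If `N` is a `p`-group then every irreducible character of `N` satisfies the condition on degree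
and determinant. -/
theorem result (E : Type) [Group E] [Fintype E] (p : ℕ) [Fact p.Prime] (G N : Subgroup E)
    [G.Normal] [N.Normal] (hNG : N ≤ G) :
    (∀ θ : N → ℂ, PSpec p θ → InvG G N θ → ∀ (e : E) (s : ℂ ≃+* ℂ), FixN N θ e s →
      altQ p G N (fun σ => (wQ G N θ e s σ : ℤ)) =
        altQ p G N (fun σ => (wQ G N (fun _ => 1) e s σ : ℤ))) ∧
    (IsCyclic (E ⧸ G) → ∀ θ : N → ℂ, PSpec p θ → InvG ⊤ N θ → ∀ U : Subgroup (E ⧸ G),
      altQ p G N (fun σ => (wU G N θ U σ : ℤ)) =
        altQ p G N (fun σ => (wU G N (fun _ => 1) U σ : ℤ))) ∧
    (IsPGroup p N → ∀ θ : N → ℂ, IsIrr θ → PSpec p θ) :=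
  ⟨fun θ h1 h2 e s h3 => main1 p G N hNG θ h1 h2 e s h3,
    fun _ θ h1 h2 U => main3 p G N hNG θ h1 h2 U,
    fun h1 θ h2 => (Pool.Agent.Q24.TP.t_PSP p N).1 h1 θ h2⟩

end Pool.Agent.Results.MP_baa4d7_al.InvariantTriples
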