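import Pool.Agent.Q17.OS.Fin
import Pool.Agent.Q17.OS.Abs

/-!
# Dade's invariant conjecture and one-sided inequalities

From `Pool.Agent.Q17.DC.Defs`: `Ch p G ⊥ σ` says that `σ` is the set of the members
`P₁ < ... < P_n` of a chain `1 < P₁ < ... < P_n` of `p`-subgroups of the subgroup `G`, `Ns G σ` is the
stabiliser `N_G(σ)`, `altX p G ⊥ w` is the sum of the `(-1) ^ n * w σ` over representatives `σ` of the
classes of these chains under `G`, and `indc G L θ x` is the sum of the `θ(v)/θ(1)` over the elements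
`v` of `L` conjugate to `x` under `G`. `chainStabilizer σ` is the stabiliser of `σ` in the whole group.
-/

set_option autoImplicit false

open scoped Classical
open Pool.Agent.H254R3.IN Pool.Agent.Q17.DC

namespace Pool.Agent.Results.MP_baa4d7_al.OneSidedInequalities

/-- The block of the character `θ` of the subgroup `L` of `G` induces the block `B` of `G`. -/
def Induces {E : Type} [Group E] (O : ValuationSubring ℂ) {G : Subgroup E} (B : Set (G → ℂ))
    {L : Subgroup E} (θ : L → ℂ) : Prop :=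
  ∀ ψ ∈ B, ∀ x : G, omega ψ x - indc G L θ (x : E) ∈ O.nonunits

/-- The stabiliser of the character `θ` of `L` in the subgroup `R` of `E` normalising `L`, multiplied
with `G`. For `L = N_G(σ)`, `R = N_E(σ)` this is the full preimage in `E` of `N_{E/G}(σ, θ)`. -/
def stabiliser {E : Type} [Group E] (G R L : Subgroup E) (θ : L → ℂ) : Set E :=
  {w | ∃ g ∈ G, ∃ e ∈ R, w = g * e ∧ ∀ x x' : L, (x' : E) = e * x * e⁻¹ → θ x' = θ x}

/-- `θ` is an irreducible character of the subgroup `L` of `G` whose block induces the block `B` of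
`G`, it has `p`-defect `d` and its stabiliser in `R` (see `stabiliser`) is `U`. -/
structure Counted {E : Type} [Group E] (p : ℕ) (O : ValuationSubring ℂ) (G : Subgroup E) (d : ℕ)
    (U : Set E) (B : Set (G → ℂ)) (L R : Subgroup E) (θ : L → ℂ) : Prop where
  irr : IsIrr θ
  ind : Induces O B θ
  defect : ∃ n : ℕ, (n : ℂ) = θ 1 ∧ (Nat.card L).factorization p = d + n.factorization p
  stab : stabiliser G R L θ = U

/-- Dade's alternating sum `∑ (-1)^|σ| k_σ(B, d, U)` over representatives of the classes under `G` of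
the chains of nontrivial `p`-subgroups of `G` -/
noncomputable def dadeSum {E : Type} [Group E] (p : ℕ) (O : ValuationSubring ℂ)
    (G : Subgroup E) (d : ℕ) (U : Set E) (B : Set (G → ℂ)) : ℤ :=
  altX p G ⊥ fun σ => (Nat.card {θ : Ns G σ → ℂ //
    Counted p O G d U B (Ns G σ) (Pool.Agent.Y63.KR.chainStabilizer σ) θ} : ℤ)

/-- `O_p(G) = 1` -/
def NoCore {E : Type} [Group E] (p : ℕ) (G : Subgroup E) : Prop :=
  ∀ Q : Subgroup E, Q ≤ G → IsPGroup p Q → (∀ g ∈ G, ∀ z ∈ Q, g * z * g⁻¹ ∈ Q) → Q = ⊥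

/-- the block `B₁ ⊗ B₂` of the direct product -/
def prodBlock {E₁ E₂ : Type} [Group E₁] [Group E₂] {G₁ : Subgroup E₁} {G₂ : Subgroup E₂}
    (B₁ : Set (G₁ → ℂ)) (B₂ : Set (G₂ → ℂ)) : Set (G₁.prod G₂ → ℂ) :=
  {χ | ∃ χ₁ ∈ B₁, ∃ χ₂ ∈ B₂, ∀ x : G₁.prod G₂,
    χ x = χ₁ ⟨x.1.1, x.2.1⟩ * χ₂ ⟨x.1.2, x.2.2⟩}

theorem sum_eq {E : Type} [Group E] (p : ℕ) (O : ValuationSubring ℂ) (G : Subgroup E) (d : ℕ)
    (U : Set E) (B : Set (G → ℂ)) : dadeSum p O G d U B =
      Pool.Agent.Q17.OS.DA p O G ⊥ ⊥ (fun _ => 1) B U d := by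
  unfold dadeSum Pool.Agent.Q17.OS.DA Pool.Agent.Q17.OS.cn
  refine altX_congr fun σ _ => ?_
  congr 1
  refine Nat.card_congr (Equiv.subtypeEquivRight fun θ => ⟨fun h => ⟨h.irr, h.ind, ?_, h.defect,
    h.stab⟩, fun h => ⟨h.irr, h.ind, h.defect, h.stab⟩⟩)
  intro x y hx
  have h1 : x = 1 := Subtype.ext (Subgroup.mem_bot.mp hx)
  rw [h1, one_mul, one_mul]

/-- the data of the conjecture -/
structure Data (p : ℕ) (O : ValuationSubring ℂ) : Type 1 where
  E : Type
  grp : Group E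
  fin : Fintype E
  G : Subgroup E
  hG : G.Normal
  hc : NoCore p G
  B : Set (G → ℂ)
  hB : IsBlock O B
  D : Subgroup E
  hDG : D ≤ G
  hD : IsDefectGroup p O B (D.subgroupOf G)
  ne : ⊥ < D
  U : Set E

/-- the alternating sum for the data -/
noncomputable def Data.sum {p : ℕ} {O : ValuationSubring ℂ} (x : Data p O) (d : ℕ) : ℤ :=
  @dadeSum x.E x.grp p O x.G d x.U x.B

theorem core_prod {p : ℕ} {E F : Type} [Group E] [Group F] {G : Subgroup E} {H : Subgroup F}
    (h1 : NoCore p G) (h2 : NoCore p H) : NoCore p (G.prod H) := by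
  have c1 : Pool.Agent.Q17.OS.Core p G ⊥ := ⟨bot_le, IsPGroup.of_bot, fun g _ z hz => by
    rw [Subgroup.mem_bot.mp hz, mul_one, mul_inv_cancel]; exact Subgroup.one_mem _,
    fun Q a b c => (h1 Q a b c).le⟩
  have c2 : Pool.Agent.Q17.OS.Core p H ⊥ := ⟨bot_le, IsPGroup.of_bot, fun g _ z hz => by
    rw [Subgroup.mem_bot.mp hz, mul_one, mul_inv_cancel]; exact Subgroup.one_mem _,
    fun Q a b c => (h2 Q a b c).le⟩
  intro Q a b c
  have h3 := (c1.prod c2).max Q a b c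
  rwa [Subgroup.bot_prod_bot, le_bot_iff] at h3

theorem prod_sum {p : ℕ} [Fact p.Prime] {O : ValuationSubring ℂ} (hO : (p : ℂ) ∈ O.nonunits)
    {E₁ E₂ : Type} [Group E₁] [Group E₂] [Fintype E₁] [Fintype E₂] (G₁ : Subgroup E₁)
    (G₂ : Subgroup E₂) [G₁.Normal] [G₂.Normal] {B₁ : Set (G₁ → ℂ)} {B₂ : Set (G₂ → ℂ)}
    (hB₁ : IsBlock O B₁) (hB₂ : IsBlock O B₂) (U₁ : Set E₁) (U₂ : Set E₂) (d : ℕ) :
    dadeSum p O (G₁.prod G₂) d (U₁ ×ˢ U₂) (prodBlock B₁ B₂) =
      ∑ q ∈ Finset.range (d + 1), dadeSum p O G₁ q U₁ B₁ * dadeSum p O G₂ (d - q) U₂ B₂ := by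
  have h := Pool.Agent.Q17.OS.dpr p O hO E₁ E₂ G₁ ⊥ ⊥ G₂ ⊥ ⊥ bot_le bot_le IsPGroup.of_bot
    IsPGroup.of_bot (fun z hz => by
        rw [Subgroup.mem_bot.mp hz]
        exact ⟨G₁.one_mem, fun g _ => by rw [mul_one, one_mul]⟩)
      (fun z hz => by
        rw [Subgroup.mem_bot.mp hz]
        exact ⟨G₂.one_mem, fun g _ => by rw [mul_one, one_mul]⟩)
    (fun _ => 1) (fun _ => 1) rfl rfl B₁ B₂ hB₁ hB₂ U₁ U₂ d
  simp only [sum_eq]
  rw [← h, Subgroup.bot_prod_bot]
  have e : (fun _ : E₁ × E₂ => (1 : ℂ) * 1) = fun _ => 1 := funext fun _ => one_mul 1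
  rw [e]
  rfl

/-- **Theorem.** Let `p` be a prime.
(1) For normal subgroups `G₁` of `E₁`, `G₂` of `E₂`, `p`-blocks `B₁` of `G₁` and `B₂` of `G₂` and
`U₁ ⊆ E₁`, `U₂ ⊆ E₂`, the alternating sum of Dade's invariant conjecture for `B₁ ⊗ B₂`, the defect `d`
and `U₁ × U₂` is the sum over `q` of the products of the sums for `(B₁, q, U₁)` and `(B₂, d - q, U₂)`.
(2) If for a block `B` of a normal subgroup `G` of `E` the sums for `B ⊗ B`, `U × U` and all even
defects are not positive, then all sums for `B`, `U` are zero.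
(3) Let `M ≥ 1`. If for all finite groups `E` with a normal subgroup `G` with `O_p(G) = 1`, all
`p`-blocks `B` of `G` with a nontrivial defect group, all `U` and all `d` divisible by `M` Dade's
alternating sum is not positive, then Dade's invariant conjecture holds: all these sums are zero, for
all `d`. -/
theorem result (p : ℕ) [Fact p.Prime] (O : ValuationSubring ℂ) (hO : (p : ℂ) ∈ O.nonunits) :
    (∀ (E₁ E₂ : Type) [Group E₁] [Group E₂] [Fintype E₁] [Fintype E₂] (G₁ : Subgroup E₁)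
      (G₂ : Subgroup E₂) [G₁.Normal] [G₂.Normal] (B₁ : Set (G₁ → ℂ)) (B₂ : Set (G₂ → ℂ)),
      IsBlock O B₁ → IsBlock O B₂ → IsBlock O (prodBlock B₁ B₂) ∧
      ∀ (U₁ : Set E₁) (U₂ : Set E₂) (d : ℕ),
        dadeSum p O (G₁.prod G₂) d (U₁ ×ˢ U₂) (prodBlock B₁ B₂) =
          ∑ q ∈ Finset.range (d + 1),
            dadeSum p O G₁ q U₁ B₁ * dadeSum p O G₂ (d - q) U₂ B₂) ∧
    (∀ (E : Type) [Group E] [Fintype E] (G : Subgroup E) [G.Normal] (B : Set (G → ℂ)),
      IsBlock O B → ∀ U : Set E,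
      (∀ d, dadeSum p O (G.prod G) (2 * d) (U ×ˢ U) (prodBlock B B) ≤ 0) →
      ∀ d, dadeSum p O G d U B = 0) ∧
    ∀ M : ℕ, 1 ≤ M →
      (∀ (E : Type) [Group E] [Fintype E] (G : Subgroup E) [G.Normal], NoCore p G →
        ∀ B : Set (G → ℂ), IsBlock O B → ∀ D : Subgroup G, IsDefectGroup p O B D → D ≠ ⊥ →
        ∀ (U : Set E) (d : ℕ), M ∣ d → dadeSum p O G d U B ≤ 0) →
      ∀ (E : Type) [Group E] [Fintype E] (G : Subgroup E) [G.Normal], NoCore p G →
        ∀ B : Set (G → ℂ), IsBlock O B → ∀ D : Subgroup G, IsDefectGroup p O B D → D ≠ ⊥ →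
        ∀ (U : Set E) (d : ℕ), dadeSum p O G d U B = 0 := by
  refine ⟨?_, ?_, ?_⟩
  · intro E₁ E₂ _ _ _ _ G₁ G₂ _ _ B₁ B₂ hB₁ hB₂
    exact ⟨(Pool.Agent.Q111.OS.t_PBK p O hO E₁ E₂ G₁ G₂ B₁ B₂ hB₁ hB₂).1,
      fun U₁ U₂ d => prod_sum hO G₁ G₂ hB₁ hB₂ U₁ U₂ d⟩
  · intro E _ _ G _ B hB U h d
    refine Pool.Agent.Q17.OS.top_coeff (f := fun d => dadeSum p O G d U B)
      (g := fun d => dadeSum p O (G.prod G) d (U ×ˢ U) (prodBlock B B))
      (N := (Nat.card E).factorization p) (fun d hd => ?_)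
      (fun d => prod_sum hO G G hB hB U U d) h d
    rw [sum_eq]
    exact Pool.Agent.Q17.OS.DA_large hd
  · intro M hM h E _ _ G hG hc B hB D hD hne U d
    have hsub : (D.map G.subtype).subgroupOf G = D := by
      unfold Subgroup.subgroupOf
      exact Subgroup.comap_map_eq_self_of_injective G.subtype_injective D
    refine Pool.Agent.Q17.OS.one_sided (Data.sum (p := p) (O := O)) (fun x => ?_) (fun x y => ?_)
      M hM (fun x d hd => ?_)
      ⟨E, inferInstance, inferInstance, G, hG, hc, B, hB, D.map G.subtype,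
        Subgroup.map_subtype_le D, by rw [hsub]; exact hD, ?_, U⟩ d
    · obtain ⟨E, gE, fE, G, hG, hc, B, hB, D, hDG, hD, hne, U⟩ := x
      refine ⟨(Nat.card E).factorization p, fun d hd => ?_⟩
      change dadeSum p O G d U B = 0
      rw [sum_eq]
      exact Pool.Agent.Q17.OS.DA_large hd
    · obtain ⟨E, gE, fE, G, hG, hc, B, hB, D, hDG, hD, hne, U⟩ := x
      obtain ⟨E', gE', fE', G', hG', hc', B', hB', D', hDG', hD', hne', U'⟩ := y
      obtain ⟨b1, b2⟩ := Pool.Agent.Q111.OS.t_PBK p O hO E E' G G' B B' hB hB'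
      refine ⟨⟨E × E', inferInstance, inferInstance, G.prod G', inferInstance, core_prod hc hc',
        prodBlock B B', b1, D.prod D', Subgroup.prod_mono hDG hDG', b2 D D' hDG hDG' hD hD',
        ?_, U ×ˢ U'⟩, fun d => ?_⟩
      · have h1 := Pool.Agent.Q17.OS.prod_lt hne hne'
        rwa [Subgroup.bot_prod_bot] at h1
      · exact prod_sum hO G G' hB hB' U U' d
    · obtain ⟨E, gE, fE, G, hG, hc, B, hB, D, hDG, hD, hne, U⟩ := x
      refine h E G hc B hB (D.subgroupOf G) hD (fun h0 => ?_) U d hd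
      have h1 := Subgroup.subgroupOf_eq_bot.mp h0
      rw [disjoint_iff, inf_eq_left.mpr hDG] at h1
      exact hne.ne' h1
    · rw [bot_lt_iff_ne_bot]
      intro h0
      exact hne ((Subgroup.map_eq_bot_iff_of_injective D G.subtype_injective).mp h0)

end Pool.Agent.Results.MP_baa4d7_al.OneSidedInequalities
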