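import Pool.Agent.Q17.DC.All

/-!
# Dade's invariant conjecture relative to a normal subgroup

`G` is a normal subgroup of the finite group `E`, `N ≤ G` is normal in `E` and `y ∈ G` is a
`p`-element of order `p` modulo `N` which is central in `E` modulo `N`. The hypothesis is on the
centralisers in `N` of the `p`-elements of the coset `yN` only. The alternating sums of Dade's
invariant conjecture (with automorphisms of `ℂ` added) for `G` in `E` and the blocks of `G` with a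
defect group `D` whose centre meets `N⟨y⟩` outside `N` are the sums of those for `G ∩ H` in `H` and
the blocks of `G ∩ H` which induce them. For the other blocks this holds for the characters of the
stabilisers which lie in blocks that see the coset.

From `Pool.Agent.Q17.DC`: `Ch p X Z₀ σ` says that `σ` is the set of the members `P₁ < ... < P_n` of a
chain `Z₀ < P₁ < ... < P_n` of `p`-subgroups of the subgroup `X`, `Ns X σ` is the stabiliser of `σ`
in `X`, `altX p X Z₀ w` is the sum of the `(-1) ^ n * w σ` over representatives `σ` of the classes of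
these chains under `X`, `indc X L θ x` is the sum of the `θ(v)/θ(1)` over the elements `v` of `L`
conjugate to `x` under `X`, and `Sec p N K x` says that the `p`-part of `x` is in `K` and not in `N`.
-/

open scoped Classical
open Pool.Agent.H254R3.IN Pool.Agent.Q17.DC

namespace Pool.Agent.Results.MP_baa4d7_al.RelativeInvariant

/-- The hypotheses on `(E, N, y, P, H)`: `y ∈ P` has order `p` modulo `N` and is central modulo `N`;
`H` contains the Sylow `p`-subgroup `P` and `C_N(x)` for all `x ∈ P ∩ yN`, and `E = NH`. -/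
def Hyp {E : Type} [Group E] (p : ℕ) (N : Subgroup E) (y : E) (P : Sylow p E) (H : Subgroup E) :
    Prop :=
  (y ∈ P ∧ y ∉ N ∧ y ^ p ∈ N ∧ ∀ g : E, g * y * g⁻¹ * y⁻¹ ∈ N) ∧
    (P : Subgroup E) ≤ H ∧ (∀ g : E, ∃ n ∈ N, ∃ h ∈ H, g = n * h) ∧
    ∀ x ∈ P, y⁻¹ * x ∈ N → ∀ n ∈ N, Commute n x → n ∈ H

/-- The block of the character `θ` of the subgroup `L` of `X` induces the block `b` of `X`. -/
def Induces {E : Type} [Group E] (O : ValuationSubring ℂ) {X : Subgroup E} (b : Set (X → ℂ))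
    {L : Subgroup E} (θ : L → ℂ) : Prop :=
  ∀ ψ ∈ b, ∀ x : X, omega ψ x - indc X L θ (x : E) ∈ O.nonunits

/-- The stabiliser of the character `θ` of `L` in `R × Aut(ℂ)`, for a subgroup `R` of `E` normalising
`L`, multiplied with `G`: the pairs `(g * e, τ)` with `g ∈ G`, `e ∈ R` and
`θ(e x e⁻¹) = τ(θ(x))` for all `x ∈ L`. For `L = N_G(σ)`, `R = N_E(σ)` this is the full preimage
in `E × Aut(ℂ)` of the stabiliser `N_{E/G × Aut(ℂ)}(σ, θ)`; for `L = N_{G ∩ H}(σ)`, `R = N_H(σ)` it is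
the preimage of `N_{H/(G ∩ H) × Aut(ℂ)}(σ, θ)`, where `H/(G ∩ H) = E/G`. -/
def stabiliser {E : Type} [Group E] (G R L : Subgroup E) (θ : L → ℂ) : Set (E × (ℂ ≃+* ℂ)) :=
  {w | ∃ g ∈ G, ∃ e ∈ R, w.1 = g * e ∧
    ∀ x x' : L, (x' : E) = e * x * e⁻¹ → θ x' = w.2 (θ x)}

/-- `θ` is an irreducible character of the subgroup `L` of `X` whose block induces the block `b` of
`X`, it has `p`-defect `d` and its stabiliser in `R × Aut(ℂ)` (see `stabiliser`) is `U`. -/
structure Counted {E : Type} [Group E] (p : ℕ) (O : ValuationSubring ℂ) (G : Subgroup E) (d : ℕ)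
    (U : Set (E × (ℂ ≃+* ℂ))) {X : Subgroup E} (b : Set (X → ℂ)) (L R : Subgroup E)
    (θ : L → ℂ) : Prop where
  irr : IsIrr θ
  ind : Induces O b θ
  defect : ∃ n : ℕ, (n : ℂ) = θ 1 ∧ (Nat.card L).factorization p = d + n.factorization p
  stab : stabiliser G R L θ = U

/-- The block of the character `θ` of `L` sees `K ∖ N`: its central character does not vanish at the
class of some element of `L` whose `p`-part is in `K` and not in `N`. -/
def Sees {E : Type} [Group E] (p : ℕ) (O : ValuationSubring ℂ) (N K L : Subgroup E)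
    (θ : L → ℂ) : Prop :=
  ∃ x : L, Sec p N K (x : E) ∧ omega θ x ∉ O.nonunits

/-- The alternating sum `∑ (-1)^|σ| k_σ(b, d, U)` over representatives of the classes under `X` of the
chains of `p`-subgroups of `X` which start with `Z₀`; stabilisers of characters of `N_X(σ)` are taken
in `N_M(σ)`. -/
noncomputable def dadeSum {E : Type} [Group E] (p : ℕ) (O : ValuationSubring ℂ)
    (G Z₀ : Subgroup E) (d : ℕ) (U : Set (E × (ℂ ≃+* ℂ))) (X M : Subgroup E)
    (b : Set (X → ℂ)) : ℤ :=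
  altX p X Z₀ fun σ => (Nat.card {θ : Ns X σ → ℂ //
    Counted p O G d U b (Ns X σ) (Ns M σ) θ} : ℤ)

/-- The same sum for the characters in blocks which see `K ∖ N`. -/
noncomputable def dadeSumSeeing {E : Type} [Group E] (p : ℕ) (O : ValuationSubring ℂ)
    (N K G Z₀ : Subgroup E) (d : ℕ) (U : Set (E × (ℂ ≃+* ℂ))) (X M : Subgroup E)
    (b : Set (X → ℂ)) : ℤ :=
  altX p X Z₀ fun σ => (Nat.card {θ : Ns X σ → ℂ //
    Counted p O G d U b (Ns X σ) (Ns M σ) θ ∧ Sees p O N K (Ns X σ) θ} : ℤ)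

/-- The blocks of the subgroup `X` of `G` which induce the block `B` of `G`. -/
def Below {E : Type} [Group E] (O : ValuationSubring ℂ) {G : Subgroup E} (B : Set (G → ℂ))
    (X : Subgroup E) : Type :=
  {b : Set (X → ℂ) // IsBlock O b ∧ ∀ θ ∈ b, Induces O B θ}

/-- the data -/
noncomputable def dt {E : Type} [Group E] (p : ℕ) (O : ValuationSubring ℂ) (N K G : Subgroup E)
    (d : ℕ) (U : Set (E × (ℂ ≃+* ℂ))) (χ₀ : G → ℂ) : Dt E :=
  ⟨p, O, G, N, K, ⊥, fun x => if h : x ∈ G then omega χ₀ ⟨x, h⟩ else 0, fun _ => 1, True, False,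
    fun k n => k.factorization p = d + n.factorization p, fun S => S = U⟩

theorem rst_iff {E : Type} [Group E] {p : ℕ} {O : ValuationSubring ℂ} {N K G : Subgroup E}
    {d : ℕ} {U : Set (E × (ℂ ≃+* ℂ))} {χ₀ : G → ℂ} {X : Subgroup E} {b : Set (X → ℂ)}
    {L R : Subgroup E} {θ : L → ℂ} :
    (IsIrr θ ∧ (∀ ψ ∈ b, ∀ x : X, omega ψ x - indc X L θ (x : E) ∈ O.nonunits) ∧
      Rst (dt p O N K G d U χ₀) L R θ) ↔
    Counted p O G d U b L R θ ∧ Sees p O N K L θ := by
  constructor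
  · rintro ⟨h1, h2, h3, -, -, h4, h5⟩
    exact ⟨⟨h1, h2, h4, h5⟩, h3 trivial⟩
  · rintro ⟨⟨h1, h2, h4, h5⟩, h3⟩
    refine ⟨h1, h2, fun _ => h3, fun h => h.elim, fun c hc => ?_, h4, h5⟩
    have h7 : c = 1 := Subtype.ext (Subgroup.mem_bot.mp hc)
    rw [h7]
    exact (mul_one _).symm

theorem kb_eq {E : Type} [Group E] {p : ℕ} {O : ValuationSubring ℂ} {N K G : Subgroup E}
    {d : ℕ} {U : Set (E × (ℂ ≃+* ℂ))} {χ₀ : G → ℂ} {X : Subgroup E} {b : Set (X → ℂ)}
    {L R : Subgroup E} : kb (dt p O N K G d U χ₀) b L R =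
      (Nat.card {θ : L → ℂ // Counted p O G d U b L R θ ∧ Sees p O N K L θ} : ℤ) := by
  unfold kb
  congr 1
  exact Nat.card_congr (Equiv.subtypeEquivRight fun θ => rst_iff)

theorem lam_iff {E : Type} [Group E] {p : ℕ} {O : ValuationSubring ℂ} {N K G : Subgroup E}
    {d : ℕ} {U : Set (E × (ℂ ≃+* ℂ))} {B : Set (G → ℂ)} (hB : IsBlock O B) {χ₀ : G → ℂ}
    (h₀ : χ₀ ∈ B) {L : Subgroup E} (θ : L → ℂ) :
    (∀ x ∈ (dt p O N K G d U χ₀).G, (dt p O N K G d U χ₀).lam x -
      indc (dt p O N K G d U χ₀).G L θ x ∈ (dt p O N K G d U χ₀).O.nonunits) ↔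
    Induces O B θ := by
  have e : ∀ x : G, (dt p O N K G d U χ₀).lam (x : E) = omega χ₀ x := by
    intro x
    change (if h : (x : E) ∈ G then omega χ₀ ⟨x, h⟩ else 0) = _
    rw [dif_pos x.2]
  constructor
  · intro h ψ hψ x
    have h1 := h x x.2
    rw [e] at h1
    exact (blk_iff hB h₀ x _).mpr h1 ψ hψ
  · intro h x hx
    have h1 := h χ₀ h₀ ⟨x, hx⟩
    have h2 := e ⟨x, hx⟩
    change (dt p O N K G d U χ₀).lam x = _ at h2
    rw [h2]
    exact h1

/-- **Theorem.** Let `E` be a finite group, `N ≤ G` normal subgroups, `P` a Sylow `p`-subgroup of `E`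
and `y ∈ P ∩ G`, `y ∉ N` with `y ^ p ∈ N` and `[E, y] ≤ N`. Let `H ≥ P` be a subgroup with `E = NH`
and `C_N(x) ≤ H` for all `x ∈ P ∩ yN`. Let `Z₀ ≤ G` be a `p`-subgroup which is normal in `E` (for
instance `O_p(G)`), `B` a `p`-block of `G`, `d` a natural number and `U` a set of pairs of an element
of `E` and an automorphism of `ℂ`. Then `Z₀ ≤ H`, `E = GH` and
(1) Dade's alternating sum `∑ (-1)^|σ| k_σ(B, d, U)`, where `U` is the stabiliser in
`E/G × Aut(ℂ)`, restricted to the characters in the blocks of the stabilisers `N_G(σ)` which see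
`N⟨y⟩ ∖ N`, is the sum of the same sums for `G ∩ H` in `H` over the blocks `b` of `G ∩ H` with
`b^G = B` (with `H/(G ∩ H) = E/G`);
(2) if `B` has a defect group `D` with `Z(D) ∩ N⟨y⟩ ⊄ N` then Dade's full alternating sum for
`(E, G, B, d, U)` is the sum of those for `(H, G ∩ H, b, d, U)`, `b^G = B`; so Dade's invariant
conjecture with automorphisms of `ℂ` holds for `B` in `E` if it holds for all `b` with `b^G = B` in
`H`;
(3) if moreover some `p`-subgroup `Q` of `G ∩ H` is normal in `H` and not contained in `Z₀` then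
Dade's alternating sum for `(E, G, B, d, U)` is zero. -/
theorem result (E : Type) [Group E] [Fintype E] (p : ℕ) [Fact p.Prime] (N G H : Subgroup E)
    [N.Normal] [G.Normal] (P : Sylow p E) (y : E) (hyp : Hyp p N y P H) (hNG : N ≤ G)
    (hyG : y ∈ G) (O : ValuationSubring ℂ) (hO : (p : ℂ) ∈ O.nonunits) (Z₀ : Subgroup E)
    [Z₀.Normal] (hZ₀ : IsPGroup p Z₀) (hZG : Z₀ ≤ G) (B : Set (G → ℂ)) (hB : IsBlock O B)
    (d : ℕ) (U : Set (E × (ℂ ≃+* ℂ))) :
    (Z₀ ≤ H ∧ ∀ e : E, ∃ g ∈ G, ∃ h ∈ H, e = g * h) ∧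
    dadeSumSeeing p O N (N ⊔ Subgroup.zpowers y) G Z₀ d U G ⊤ B =
      ∑ᶠ b : Below O B (G ⊓ H),
        dadeSumSeeing p O N (N ⊔ Subgroup.zpowers y) G Z₀ d U (G ⊓ H) H b.1 ∧
    ((∃ D : Subgroup G, IsDefectGroup p O B D ∧ ∃ z ∈ D, (∀ x ∈ D, Commute z x) ∧
        (z : E) ∈ N ⊔ Subgroup.zpowers y ∧ (z : E) ∉ N) →
      dadeSum p O G Z₀ d U G ⊤ B = ∑ᶠ b : Below O B (G ⊓ H),
        dadeSum p O G Z₀ d U (G ⊓ H) H b.1 ∧
      ((∃ Q : Subgroup E, Q ≤ G ⊓ H ∧ IsPGroup p Q ∧ H ≤ Subgroup.normalizer (Q : Set E) ∧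
          ¬ Q ≤ Z₀) → dadeSum p O G Z₀ d U G ⊤ B = 0)) := by
  obtain ⟨K, hKdef⟩ : ∃ K, K = N ⊔ Subgroup.zpowers y := ⟨_, rfl⟩
  have td : Pool.Agent.Q17.TC.TD p N y H P := ⟨inferInstance, hyp.1.2.1, hyp.1.2.2.1,
    hyp.1.2.2.2, hyp.1.1, hyp.2.1, hyp.2.2.1, hyp.2.2.2⟩
  rw [← hKdef]
  have hK : K.Normal := by
    rw [hKdef]
    exact td.nK
  have hN : N.Normal := inferInstance
  obtain ⟨χ₀, h₀⟩ := hB.nonempty
  have hN' : (dt p O N K G d U χ₀).N.Normal := hN
  have hp' : Fact (dt p O N K G d U χ₀).p.Prime := inferInstanceAs (Fact p.Prime)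
  have hgl : Gl (dt p O N K G d U χ₀) y H P Z₀ :=
    { d := td
      hK := hKdef
      hO := hO
      hNG := hNG
      hyG := hyG
      hG := inferInstanceAs G.Normal
      hZn := inferInstance
      hZG := hZG
      hZp := hZ₀
      hZ := fun c hc g _ => by
        have h1 : c = 1 := Subgroup.mem_bot.mp hc
        rw [h1, one_mul, mul_one]
      hab := Or.inl trivial
      hT := Or.inl trivial
      hT' := by
        intro k n l m _ _ _ _ h1 _
        change k.factorization p + m.factorization p = l.factorization p + n.factorization p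
          at h1
        change k.factorization p = d + n.factorization p ↔
          l.factorization p = d + m.factorization p
        omega }
  have hwn : altX p G Z₀ (wn (dt p O N K G d U χ₀) G ⊤) =
      dadeSumSeeing p O N K G Z₀ d U G ⊤ B := by
    unfold dadeSumSeeing
    refine altX_congr fun σ _ => ?_
    rw [← kb_eq (χ₀ := χ₀)]
    unfold wn kn kb
    congr 1
    refine Nat.card_congr (Equiv.subtypeEquivRight fun θ => cn_iff.trans ?_)
    refine and_congr_right fun _ => and_congr_left fun _ => ?_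
    exact lam_iff hB h₀ θ
  have hidx : ∀ b : Set ((G ⊓ H : Subgroup E) → ℂ), (IsBlock (dt p O N K G d U χ₀).O b ∧
      ∀ ψ ∈ b, ∀ x ∈ (dt p O N K G d U χ₀).G, (dt p O N K G d U χ₀).lam x -
        indc (dt p O N K G d U χ₀).G (G ⊓ H) ψ x ∈ (dt p O N K G d U χ₀).O.nonunits) ↔
      (IsBlock O b ∧ ∀ θ ∈ b, Induces O B θ) := fun b => and_congr_right fun _ =>
    ⟨fun h θ hθ => (lam_iff hB h₀ θ).mp (h θ hθ), fun h θ hθ => (lam_iff hB h₀ θ).mpr (h θ hθ)⟩
  have hsee : dadeSumSeeing p O N K G Z₀ d U G ⊤ B =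
      ∑ᶠ b : Below O B (G ⊓ H), dadeSumSeeing p O N K G Z₀ d U (G ⊓ H) H b.1 := by
    rw [← hwn]
    refine (hgl.alt_dec prt.lo prt.bl prt.ts prt.df prt.chi prt.chs prt.cnj prt.exc prt.dec
      (X := G ⊓ H) rfl).trans ?_
    refine (finsum_comp_equiv (Equiv.subtypeEquivRight hidx) (f := fun b : Below O B (G ⊓ H) =>
      altX p (G ⊓ H) Z₀ fun σ => kb (dt p O N K G d U χ₀) b.1 (Ns (G ⊓ H) σ) (Ns H σ))).trans ?_
    refine finsum_congr fun b => ?_
    unfold dadeSumSeeing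
    exact altX_congr fun σ _ => kb_eq
  obtain ⟨-, -, -, hZH⟩ := prt.chi Pool.Agent.Q17.TC.parts2.ti E p N G y H P td hNG hyG Z₀ hZG hZ₀
  refine ⟨⟨hZH, fun e => ?_⟩, hsee, ?_⟩
  · obtain ⟨n, hn, h, hh, he⟩ := hyp.2.2.1 e
    exact ⟨n, hNG hn, h, hh, he⟩
  · rintro ⟨D, hD, z, hz, hzc, hzK, hzN⟩
    obtain ⟨x, h1, h2, h3⟩ := prt.mmz G p O hO B hB D hD z hz hzc
    have hsec : Sec p N K ((z * x : G) : E) := by
      refine ⟨z, x, rfl, congrArg Subtype.val h1.eq, hzK, hzN, ?_, ?_⟩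
      · obtain ⟨w, ⟨P', hP'⟩, -⟩ := hD
        have hDp : IsPGroup p D := by
          rw [hP']
          exact P'.isPGroup'.map _
        obtain ⟨k, hk⟩ := hDp ⟨z, hz⟩
        have hk' : z ^ p ^ k = 1 := congrArg Subtype.val hk
        obtain ⟨j, -, hj⟩ := (Nat.dvd_prime_pow Fact.out).mp (orderOf_dvd_of_pow_eq_one hk')
        exact ⟨j, by rw [Subgroup.orderOf_coe, hj]⟩
      · rw [Subgroup.orderOf_coe]
        exact h2
    -- every character in a block inducing `B` sees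
    have hgood : ∀ L : Subgroup E, L ≤ G → ∀ θ : L → ℂ, IsIrr θ → Induces O B θ →
        Sees p O N K L θ := by
      intro L hL θ hθ hi
      refine good_cn (D := dt p O N K G d U χ₀) prt.gdt hN hK (x := ((z * x : G) : E))
        (z * x).2 hsec ?_ hL hθ ((lam_iff hB h₀ θ).mpr hi)
      change (if h : ((z * x : G) : E) ∈ G then omega χ₀ ⟨((z * x : G) : E), h⟩ else 0) ∉ O.nonunits
      rw [dif_pos (z * x).2]
      exact h3 χ₀ h₀
    have hG : dadeSum p O G Z₀ d U G ⊤ B = dadeSumSeeing p O N K G Z₀ d U G ⊤ B := by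
      unfold dadeSum dadeSumSeeing
      refine altX_congr fun σ _ => ?_
      congr 1
      refine Nat.card_congr (Equiv.subtypeEquivRight fun θ => ⟨fun h => ⟨h, ?_⟩, fun h => h.1⟩)
      exact hgood _ inf_le_left θ h.irr h.ind
    refine ⟨?_, ?_⟩
    · rw [hG, hsee]
      refine finsum_congr fun b => ?_
      unfold dadeSum dadeSumSeeing
      refine altX_congr fun σ _ => ?_
      congr 1
      refine Nat.card_congr (Equiv.subtypeEquivRight fun θ => ⟨fun h => h.1, fun h => ⟨h, ?_⟩⟩)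
      obtain ⟨ψ, hψ⟩ := b.2.1.nonempty
      refine hgood _ (inf_le_left.trans inf_le_left) θ h.irr fun χ hχ v => ?_
      have h4 := prt.ts E O G (G ⊓ H) (Ns (G ⊓ H) σ) inf_le_left inf_le_left ψ
        (b.2.1.irr ψ hψ) θ h.irr (h.ind ψ hψ) v
      have h5 := Pool.Agent.Q17.TC.nu_add (b.2.2 ψ hψ χ hχ v) h4
      rwa [sub_add_sub_cancel] at h5
    · rintro ⟨Q, hQ, hQp, hHQ, hQZ⟩
      rw [hG, ← hwn]
      exact hgl.alt_zero' prt.lo prt.bl prt.ts prt.df prt.chi prt.chs prt.cnj prt.con hQp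
        (hQ.trans inf_le_left) (hQ.trans inf_le_right) hHQ hQZ

end Pool.Agent.Results.MP_baa4d7_al.RelativeInvariant
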